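import Pool.Agent.X69.Ric.Pack

/-!
The pairs `(n, 2 n - 1)` without small prime factors: limit points of the vectors of consecutive normalised gaps.
-/

set_option autoImplicit false

namespace Pool.Agent.Results.MP_0fefc4_nt.GapLimitVectors

open Filter MeasureTheory

/-- The pair `(n, 2 n - 1)`. -/
def f (n : ℕ) : Fin 2 → ℕ := ![n, 2 * n - 1]

/-- `Many A`: for some `c > 0` and all large `X`, the set `A` has at least `c X / (log X) ^ 2` elements in `[1, X]`. -/
def Many (A : Set ℕ) : Prop :=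
  ∃ c : ℝ, 0 < c ∧ ∀ᶠ X : ℕ in atTop, c * X / Real.log X ^ 2 ≤ ((A ∩ Set.Icc 1 X).ncard : ℝ)

/-- No prime factor of a component of `f n` is less than `n ^ δ`. -/
def Rough (δ : ℝ) (n : ℕ) : Prop := ∀ i, ∀ p : ℕ, p.Prime → p ∣ f n i → (n : ℝ) ^ δ ≤ p

/-- The `n ≥ 1` such that all the components of `f n` have at most `r` prime factors, counted with multiplicity,
none of them less than `n ^ (1 / r)`. -/
def Almost (r : ℕ) : Set ℕ :=
  {n | 1 ≤ n ∧ ∀ i, ArithmeticFunction.cardFactors (f n i) ≤ r ∧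
    ∀ p : ℕ, p.Prime → p ∣ f n i → (n : ℝ) ^ (1 / (r : ℝ)) ≤ p}

/-- The vector of `m` consecutive normalised gaps `(a (k+i+1) - a (k+i)) / (log a (k+i)) ^ 2`, `0 ≤ i < m`, of the
set `A = {a 0 < a 1 < ...}`. -/
noncomputable def gaps (A : Set ℕ) (m k : ℕ) : Fin m → ℝ := fun i =>
  ((Nat.nth (· ∈ A) (k + i + 1) : ℝ) - Nat.nth (· ∈ A) (k + i)) / Real.log (Nat.nth (· ∈ A) (k + i)) ^ 2

/-- The set of the limit points in `ℝ ^ m` of the vectors of `m` consecutive normalised gaps of `A`. -/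
def LimitVectors (A : Set ℕ) (m : ℕ) : Set (Fin m → ℝ) := {t | MapClusterPt t atTop (gaps A m)}

theorem result :
    (∀ A : Set ℕ, ∀ δ : ℝ, 0 < δ → (∀ n ∈ A, Rough δ n) → Many A →
      ∀ m : ℕ, 1 ≤ m → 0 < volume (LimitVectors A m)) ∧
    ∃ r : ℕ, 1 ≤ r ∧ Many (Almost r) ∧ ∀ m : ℕ, 1 ≤ m → 0 < volume (LimitVectors (Almost r) m) :=
  Pool.Agent.X69.Ric.pack_gaps (a := ![1, 2]) (b := ![0, -1]) (f := f)
    (by norm_num) (by decide) (by decide)
    (fun p hp => ⟨1, by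
      have h1 : ¬ (p : ℤ) ∣ 1 := fun h => hp.one_lt.ne' (Nat.dvd_one.1 (by exact_mod_cast h))
      rw [Fin.forall_fin_two]
      simpa using h1⟩)
    (fun n hn i => by fin_cases i <;> simp [f]; omega)

end Pool.Agent.Results.MP_0fefc4_nt.GapLimitVectors
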