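import Pool.Agent.X37.RW.Rat

/-!
# Systems of iterated equations solved by consecutive primes of an orbit

`a p - b q = c` means that `p = (b q + c) / a` is the image of `q` under `x ↦ (b x + c) / a`; for
`(a, b, c) = (1, 2, -1)` this is the map `q ↦ 2 q - 1` of the question. Let `k ≥ 1`, `ε > 0`. For all
pairwise coprime `a, b ≥ 1` and `c ≠ 0`, not all three odd, and every set `V` of at least `n₀(k, ε)`
times, which for each prime `l` dividing `a - b` but not `c` misses a residue class modulo `l`, at least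
the proportion `1 / C(8 k ^ 2, k) - ε` of the `(k + 1)`-element subsets `T` of `V` have the following
property: for infinitely many primes `q` the orbit of `q` is integral up to the time `max T - min T` and
its primes up to this time are exactly its values at the `k + 1` times `t - min T`, `t ∈ T`. These
`k + 1` primes solve the `k (k + 1) / 2` iterated equations belonging to the differences of `T`.
-/

set_option autoImplicit false

namespace Pool.Agent.Results.MP_0fefc4_nt.SystemsOfIterates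

open Finset Pool.Agent.X37.RW

/-- for infinitely many primes `q` there is an orbit `x 0 = q`, `a x (j + 1) = b x j + c` of natural
numbers up to the time `max T - min T`, and `x j` is prime exactly if `min T + j ∈ T` -/
def Realised (a b : ℕ) (c : ℤ) (T : Finset ℕ) : Prop :=
  {q : ℕ | q.Prime ∧ ∃ m ∈ T, (∀ t ∈ T, m ≤ t) ∧ ∃ x : ℕ → ℕ, x 0 = q ∧
    (∀ j, (∃ t ∈ T, m + j < t) → (a : ℤ) * x (j + 1) = b * x j + c) ∧
    ∀ j, (∃ t ∈ T, m + j ≤ t) → ((x j).Prime ↔ m + j ∈ T)}.Infinite

open Classical in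
theorem result (k : ℕ) (hk : 1 ≤ k) (ε : ℝ) (hε : 0 < ε) : ∃ n₀ : ℕ,
    ∀ (a b : ℕ) (c : ℤ), 1 ≤ a → 1 ≤ b → c ≠ 0 → IsCoprime (a : ℤ) b → IsCoprime (a : ℤ) c →
      IsCoprime (b : ℤ) c → ¬ (Odd a ∧ Odd b ∧ Odd c) →
    ∀ V : Finset ℕ, (∀ l : ℕ, l.Prime → (l : ℤ) ∣ a - b → ¬ (l : ℤ) ∣ c →
      ∃ r : ℕ, ∀ v ∈ V, ¬ v ≡ r [MOD l]) → n₀ ≤ V.card →
    (1 / ((8 * k ^ 2).choose k : ℝ) - ε) * (V.card.choose (k + 1) : ℝ) ≤
      (((V.powersetCard (k + 1)).filter (Realised a b c)).card : ℝ) :=
  rat_subsets k hk ε hε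

end Pool.Agent.Results.MP_0fefc4_nt.SystemsOfIterates
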